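import Mathlib
import Pool.Agent.H1.CM.Targets2

/-!
# Module FORMA: action of a field automorphism on 2-forms
-/

namespace Pool.Agent.H1.CM

namespace FORMA

section Map

variable {k K L : Type} [Field k] [Field K] [Field L] [Algebra k K] [Algebra k L]

/-- The alternating map `(x, y) ↦ σ x ∧ σ y`. -/
noncomputable def alt [Algebra K L] [IsScalarTower k K L] :
    (Ω[K⁄k]) [⋀^Fin 2]→ₗ[K] Forms k L where
  toFun v := exteriorPower.ιMulti L 2 (fun i => KaehlerDifferential.map k k K L (v i))
  map_update_add' := by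
    intro inst v i x y
    have h : ∀ z, (fun j => KaehlerDifferential.map k k K L (Function.update v i z j))
        = Function.update (fun j => KaehlerDifferential.map k k K L (v j)) i
          (KaehlerDifferential.map k k K L z) := by
      intro z
      funext j
      by_cases hj : j = i
      · subst hj; simp
      · simp [hj]
    simp only [h, map_add]
    exact (exteriorPower.ιMulti L 2).map_update_add _ i _ _
  map_update_smul' := by
    intro inst v i c x
    have h : ∀ z, (fun j => KaehlerDifferential.map k k K L (Function.update v i z j))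
        = Function.update (fun j => KaehlerDifferential.map k k K L (v j)) i
          (KaehlerDifferential.map k k K L z) := by
      intro z
      funext j
      by_cases hj : j = i
      · subst hj; simp
      · simp [hj]
    simp only [h, map_smul]
    rw [← algebraMap_smul L c, (exteriorPower.ιMulti L 2).map_update_smul, algebraMap_smul]
  map_eq_zero_of_eq' := by
    intro v i j hv hij
    exact (exteriorPower.ιMulti L 2).map_eq_zero_of_eq _ (by simp only [hv]) hij

lemma exists_map (σ : K →+* L) (hσ : ∀ c : k, σ (algebraMap k K c) = algebraMap k L c) :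
    ∃ A : Forms k K →+ Forms k L, (∀ (c : K) (ω : Forms k K), A (c • ω) = σ c • A ω) ∧
      ∀ f g : K, A (dd k f g) = dd k (σ f) (σ g) := by
  let _ := σ.toAlgebra
  have : IsScalarTower k K L := IsScalarTower.of_algebraMap_eq fun c => (hσ c).symm
  refine ⟨(exteriorPower.alternatingMapLinearEquiv (alt (k := k) (K := K) (L := L))).toAddMonoidHom,
    ?_, ?_⟩
  · intro c ω
    change exteriorPower.alternatingMapLinearEquiv (alt (k := k) (K := K) (L := L)) (c • ω)
      = σ c • exteriorPower.alternatingMapLinearEquiv (alt (k := k) (K := K) (L := L)) ω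
    rw [map_smul]
    exact (algebraMap_smul L c _).symm
  · intro f g
    change exteriorPower.alternatingMapLinearEquiv (alt (k := k) (K := K) (L := L)) (dd k f g)
      = dd k (σ f) (σ g)
    unfold dd
    rw [exteriorPower.alternatingMapLinearEquiv_apply_ιMulti]
    change exteriorPower.ιMulti L 2 (fun i => KaehlerDifferential.map k k K L
      ((![KaehlerDifferential.D k K f, KaehlerDifferential.D k K g] : Fin 2 → Ω[K⁄k]) i)) = _
    congr 1
    funext i
    fin_cases i
    · exact KaehlerDifferential.map_D k k K L f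
    · exact KaehlerDifferential.map_D k k K L g

end Map

section

variable {k K : Type} [Field k] [Field K] [Algebra k K]

/-- The forms `df ∧ dg` span all forms. -/
lemma span_dd : Submodule.span K {ω : Forms k K | ∃ f g : K, ω = dd k f g} = ⊤ := by
  rw [eq_top_iff, ← exteriorPower.ιMulti_span_of_span K 2 (Ω[K⁄k])
    (KaehlerDifferential.span_range_derivation k K), Submodule.span_le]
  rintro _ ⟨v, hv, rfl⟩
  refine Submodule.subset_span ?_
  obtain ⟨f, hf⟩ := hv (Set.mem_range_self 0)
  obtain ⟨g, hg⟩ := hv (Set.mem_range_self 1)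
  refine ⟨f, g, ?_⟩
  unfold dd
  congr 1
  funext i
  fin_cases i
  · exact hf.symm
  · exact hg.symm

lemma comp_eq (σ τ : K ≃+* K) (hτ : ∀ x, τ (σ x) = x) (A B : Forms k K →+ Forms k K)
    (hA : ∀ (c : K) (ω : Forms k K), A (c • ω) = σ c • A ω)
    (hB : ∀ (c : K) (ω : Forms k K), B (c • ω) = τ c • B ω)
    (hA2 : ∀ f g : K, A (dd k f g) = dd k (σ f) (σ g))
    (hB2 : ∀ f g : K, B (dd k f g) = dd k (τ f) (τ g)) (ω : Forms k K) : B (A ω) = ω := by
  have hω : ω ∈ Submodule.span K {ω : Forms k K | ∃ f g : K, ω = dd k f g} := by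
    rw [span_dd]; trivial
  induction hω using Submodule.span_induction with
  | mem x hx =>
    obtain ⟨f, g, rfl⟩ := hx
    rw [hA2, hB2, hτ, hτ]
  | zero => rw [map_zero, map_zero]
  | add x y _ _ hx hy => rw [map_add, map_add, hx, hy]
  | smul c x _ hx => rw [hA, hB, hx, hτ]

/-- The semilinear map preserves the modules of forms. -/
lemma map_omegaSub (σ : K ≃+* K) (A : Forms k K →+ Forms k K)
    (hA : ∀ (c : K) (ω : Forms k K), A (c • ω) = σ c • A ω)
    (hA2 : ∀ f g : K, A (dd k f g) = dd k (σ f) (σ g)) (R R' : Subring K)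
    (hR : ∀ x ∈ R, σ x ∈ R') (ω : Forms k K) (hω : ω ∈ omegaSub k R) :
    A ω ∈ omegaSub k R' := by
  unfold omegaSub at hω
  induction hω using Submodule.span_induction with
  | mem x hx =>
    obtain ⟨f, hf, g, hg, rfl⟩ := hx
    rw [hA2]
    exact Submodule.subset_span ⟨σ f, hR f hf, σ g, hR g hg, rfl⟩
  | zero => rw [map_zero]; exact Submodule.zero_mem _
  | add x y _ _ hx hy => rw [map_add]; exact Submodule.add_mem _ hx hy
  | smul c x _ hx =>
    rw [Subring.smul_def, hA]
    exact (omegaSub k R').smul_mem ⟨σ c, hR _ c.2⟩ hx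

lemma isGen (σ : K ≃+* K) (A : Forms k K →+ Forms k K)
    (hA : ∀ (c : K) (ω : Forms k K), A (c • ω) = σ c • A ω)
    (hA2 : ∀ f g : K, A (dd k f g) = dd k (σ f) (σ g)) (η : Forms k K) (h : K)
    (hη : A η = h • η) (R R' : Subring K) (hR : ∀ x ∈ R, σ x ∈ R')
    (hR' : ∀ y ∈ R', ∃ x ∈ R, σ x = y) (g : K) (hg : IsGen k R η g) :
    IsGen k R' η (σ g * h) := by
  unfold IsGen at hg ⊢
  have e : (σ g * h) • η = A (g • η) := by rw [hA, hη, smul_smul]
  apply le_antisymm
  · rw [Submodule.span_le, Set.singleton_subset_iff, e]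
    refine map_omegaSub σ A hA hA2 R R' hR _ ?_
    rw [← hg]
    exact Submodule.mem_span_singleton_self _
  · unfold omegaSub
    rw [Submodule.span_le]
    rintro _ ⟨f', hf', g', hg', rfl⟩
    obtain ⟨f, hf, rfl⟩ := hR' f' hf'
    obtain ⟨g₁, hg₁, rfl⟩ := hR' g' hg'
    have h1 : dd k f g₁ ∈ omegaSub k R := Submodule.subset_span ⟨f, hf, g₁, hg₁, rfl⟩
    rw [← hg, Submodule.mem_span_singleton] at h1
    obtain ⟨r, hr⟩ := h1
    rw [← hA2, ← hr, Subring.smul_def, hA, ← e]
    exact (Submodule.span R' {(σ g * h) • η}).smul_mem ⟨σ r, hR _ r.2⟩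
      (Submodule.mem_span_singleton_self _)

lemma regAt (σ : K ≃+* K) (A : Forms k K →+ Forms k K)
    (hA : ∀ (c : K) (ω : Forms k K), A (c • ω) = σ c • A ω)
    (hA2 : ∀ f g : K, A (dd k f g) = dd k (σ f) (σ g)) (η : Forms k K) (h : K)
    (hη : A η = h • η) (R R' : Subring K) (hR : ∀ x ∈ R, σ x ∈ R')
    (hR' : ∀ y ∈ R', ∃ x ∈ R, σ x = y) (n : ℕ) (f : K) (hf : RegAt k R η n f) :
    RegAt k R' η n (σ f * h ^ n) := by
  obtain ⟨g, hg, c, hc, rfl⟩ := hf
  refine ⟨σ g * h, isGen σ A hA hA2 η h hη R R' hR hR' g hg, σ c, hR c hc, ?_⟩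
  rw [map_mul, map_pow, mul_pow]
  ring

end

end FORMA

theorem forma : T_FORMA := by
  intro k K _ _ _ a ha η hη hspan
  obtain ⟨A, hA, hA2⟩ := FORMA.exists_map (k := k) (a : K →+* K) ha
  obtain ⟨B, hB, hB2⟩ := FORMA.exists_map (k := k) (a.symm : K →+* K) (fun c => by
    change a.symm (algebraMap k K c) = _
    rw [RingEquiv.symm_apply_eq, ha])
  have hA' : ∀ (c : K) (ω : Forms k K), A (c • ω) = a c • A ω := hA
  have hB' : ∀ (c : K) (ω : Forms k K), B (c • ω) = a.symm c • B ω := hB
  have hBA : ∀ ω, B (A ω) = ω :=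
    FORMA.comp_eq a a.symm a.symm_apply_apply A B hA' hB' hA2 hB2
  obtain ⟨h, hh⟩ := hspan (A η)
  have hh0 : h ≠ 0 := by
    rintro rfl
    rw [zero_smul] at hh
    apply hη
    rw [← hBA η, hh, map_zero]
  have hBη : B η = (a.symm h)⁻¹ • η := by
    have h1 : η = a.symm h • B η := by
      rw [← hB', ← hh, hBA]
    have h2 : a.symm h ≠ 0 := by
      simpa using hh0
    conv_rhs => rw [h1, smul_smul, inv_mul_cancel₀ h2, one_smul]
  refine ⟨h, hh0, ?_⟩
  rintro R R' hRR' n f
  have hR : ∀ x ∈ R, a x ∈ R' := by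
    intro x hx
    rw [← hRR']
    exact Subring.mem_map.mpr ⟨x, hx, rfl⟩
  have hR' : ∀ y ∈ R', ∃ x ∈ R, a x = y := by
    intro y hy
    rw [← hRR'] at hy
    exact Subring.mem_map.mp hy
  refine ⟨FORMA.regAt a A hA' hA2 η h hh R R' hR hR' n f, ?_⟩
  refine FORMA.regAt a.symm B hB' hB2 η _ hBη R' R ?_ ?_ n f
  · intro y hy
    obtain ⟨x, hx, rfl⟩ := hR' y hy
    rwa [RingEquiv.symm_apply_apply]
  · intro x hx
    exact ⟨a x, hR x hx, RingEquiv.symm_apply_apply a x⟩

end Pool.Agent.H1.CM
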