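import Mathlib
import Pool.Agent.H1.CM.Targets1

/-!
# Module LS: sections of line bundles extend
-/

namespace Pool.Agent.H1.CM

open IsLocalRing

namespace LS

variable {k C₀ : Type} [CommRing k] [CommRing C₀]

/-- The reductions of the transition functions. -/
def gb (q₀ : Quad C₀) (d : ℤ) : Fin 3 → C₀ˣ := ![q₀.X ^ d, q₀.Y ^ d, 1]

lemma up (ι₀ : k →+* C₀) (q₀ : Quad C₀) (d : ℤ) (S : Finset (Fin 3)) (j : Fin 3) (hj : j ∈ S)
    (c : C₀) (hc : InSpan ι₀ q₀.mon (reg S) c) :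
    InSpan ι₀ q₀.mon (regd d S) ((gb q₀ d j : C₀) * c) := by
  fin_cases j
  · have h := hc.shift (q := q₀) (R' := regd d S) d 0 (by
      intro s hs r hr
      have h1 := hs r hr
      have hr0 : r ≠ 0 := by
        rintro rfl
        exact hr hj
      fin_cases r
      · exact absurd rfl hr0
      · simpa [expo] using h1
      · simp only [expo, Fin.reduceFinMk, Matrix.cons_val] at h1 ⊢
        simp only [if_true]
        linarith)
    simpa [gb] using h
  · have h := hc.shift (q := q₀) (R' := regd d S) 0 d (by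
      intro s hs r hr
      have h1 := hs r hr
      have hr0 : r ≠ 1 := by
        rintro rfl
        exact hr hj
      fin_cases r
      · simpa [expo] using h1
      · exact absurd rfl hr0
      · simp only [expo, Fin.reduceFinMk, Matrix.cons_val] at h1 ⊢
        simp only [if_true]
        linarith)
    simpa [gb] using h
  · have h : InSpan ι₀ q₀.mon (regd d S) c := hc.mono (by
      intro s hs r hr
      have h1 := hs r hr
      have hr0 : r ≠ 2 := by
        rintro rfl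
        exact hr hj
      simpa [hr0] using h1)
    simpa [gb] using h

lemma down (ι₀ : k →+* C₀) (q₀ : Quad C₀) (d : ℤ) (S : Finset (Fin 3)) (j : Fin 3) (hj : j ∈ S)
    (c : C₀) (hc : InSpan ι₀ q₀.mon (regd d S) c) :
    InSpan ι₀ q₀.mon (reg S) ((((gb q₀ d j)⁻¹ : C₀ˣ) : C₀) * c) := by
  fin_cases j
  · have h := hc.shift (q := q₀) (R' := reg S) (-d) 0 (by
      intro s hs r hr
      have h1 := hs r hr
      have hr0 : r ≠ 0 := by
        rintro rfl
        exact hr hj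
      fin_cases r
      · exact absurd rfl hr0
      · simpa [expo] using h1
      · simp only [expo, Fin.reduceFinMk, Matrix.cons_val, if_true] at h1 ⊢
        linarith)
    simpa [gb] using h
  · have h := hc.shift (q := q₀) (R' := reg S) 0 (-d) (by
      intro s hs r hr
      have h1 := hs r hr
      have hr0 : r ≠ 1 := by
        rintro rfl
        exact hr hj
      fin_cases r
      · simpa [expo] using h1
      · exact absurd rfl hr0
      · simp only [expo, Fin.reduceFinMk, Matrix.cons_val, if_true] at h1 ⊢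
        linarith)
    simpa [gb] using h
  · have h : InSpan ι₀ q₀.mon (reg S) c := hc.mono (by
      intro s hs r hr
      have h1 := hs r hr
      have hr0 : r ≠ 2 := by
        rintro rfl
        exact hr hj
      simpa [hr0] using h1)
    simpa [gb] using h

lemma supp_of_inspan (ι₀ : k →+* C₀) (β : Idx → C₀) (hinj : Function.Injective (comb ι₀ β))
    (R : Set Idx) (g : Idx →₀ k) (h : InSpan ι₀ β R (comb ι₀ β g)) :
    ∀ s ∈ g.support, s ∈ R := by
  obtain ⟨g', hg', he⟩ := h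
  rw [hinj he]
  exact hg'

end LS

theorem ls (h1 : T_IND) (h2 : T_OV) (h3 : T_RED) (h4 : T_REDT) : T_LS := by
  intro A k C C₀ _ _ _ _ _ _ π ι B ι₀ q₀ ρ hctx d g hg hg0 hg1 hg2 s₀ hs₀
  obtain ⟨hR1, -, hR3, hR4, -, -⟩ := h3 π ι B ι₀ q₀ ρ hctx
  have hinj : Function.Injective (comb ι₀ q₀.mon) := hctx.fr₀.1
  have hι : ∀ S : Finset (Fin 3), S.Nonempty → ∀ a, ι a ∈ B S := by
    intro S hS a
    obtain ⟨β, hβ, _⟩ := hctx.basis
    obtain ⟨f, hf, h1f⟩ := (hβ.mem S hS 1).mp (B S).one_mem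
    refine (hβ.mem S hS _).mpr ⟨a • f, fun t ht => hf t (Finsupp.support_smul ht), ?_⟩
    rw [comb_smul, ← h1f, mul_one]
  have hgb : ∀ i, ρ (g i) = (LS.gb q₀ d i : C₀) := by
    intro i
    fin_cases i
    · exact hg0
    · exact hg1
    · simpa [LS.gb] using hg2
  have hgbi : ∀ i, ρ (((g i)⁻¹ : Cˣ) : C) = (((LS.gb q₀ d i)⁻¹ : C₀ˣ) : C₀) := by
    intro i
    have h : ρ (((g i)⁻¹ : Cˣ) : C) * (LS.gb q₀ d i : C₀) = 1 := by
      rw [← hgb, ← map_mul, Units.inv_mul, map_one]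
    calc ρ (((g i)⁻¹ : Cˣ) : C)
        = ρ (((g i)⁻¹ : Cˣ) : C) * (LS.gb q₀ d i : C₀) * (((LS.gb q₀ d i)⁻¹ : C₀ˣ) : C₀) := by
          rw [mul_assoc, Units.mul_inv, mul_one]
      _ = _ := by rw [h, one_mul]
  -- the induction
  have key := h1 A (fun J => ∃ s : C, ρ s = s₀ ∧ ∀ i, ∃ b ∈ B {i},
    s * (((g i)⁻¹ : Cˣ) : C) - b ∈ Ideal.map ι J) ?_ ?_
  · obtain ⟨s, hs, hb⟩ := key
    refine ⟨s, hs, fun i => ?_⟩
    obtain ⟨b, hb1, hb2⟩ := hb i
    rw [Ideal.map_bot, Ideal.mem_bot, sub_eq_zero] at hb2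
    rw [hb2]
    exact hb1
  · -- base
    obtain ⟨s, hs⟩ := hR1 s₀
    refine ⟨s, hs, fun i => ?_⟩
    have hi : InSpan ι₀ q₀.mon (reg {i}) (ρ (s * (((g i)⁻¹ : Cˣ) : C))) := by
      rw [map_mul, hs, hgbi, mul_comm]
      refine LS.down ι₀ q₀ d {i} i (Finset.mem_singleton_self i) s₀ (hs₀.mono ?_)
      intro t ht r _
      exact ht r (Finset.notMem_empty r)
    obtain ⟨b, hb, hρb⟩ := hR3 {i} (Finset.singleton_nonempty i) _ hi
    refine ⟨b, hb, (hR4 _).mp ?_⟩
    rw [map_sub, hρb, sub_self]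
  · -- step
    rintro J t hJ ht htJ hm ⟨s, hs, hb⟩
    obtain ⟨hT1, hT2, hT3⟩ := h4 π ι B ι₀ q₀ ρ hctx J t hJ ht htJ hm
    choose b hb1 hb2 using hb
    have hγ : ∀ i, ∃ γ, s * (((g i)⁻¹ : Cˣ) : C) - b i - ι t * γ ∈ Ideal.map ι J :=
      fun i => hT3 _ (hb2 i)
    choose γ hγ using hγ
    have hover : ∀ i j, InSpan ι₀ q₀.mon (regd d {i, j})
        (-((LS.gb q₀ d i : C₀) * ρ (γ i)) - -((LS.gb q₀ d j : C₀) * ρ (γ j))) := by
      intro i j
      have hI : ((g i * (g j)⁻¹ : Cˣ) : C) * b i - b j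
          - ι t * (γ j - ((g i * (g j)⁻¹ : Cˣ) : C) * γ i) ∈ Ideal.map ι J := by
        have e : ((g i * (g j)⁻¹ : Cˣ) : C) * b i - b j
            - ι t * (γ j - ((g i * (g j)⁻¹ : Cˣ) : C) * γ i)
            = (s * (((g j)⁻¹ : Cˣ) : C) - b j - ι t * γ j)
              - ((g i * (g j)⁻¹ : Cˣ) : C) * (s * (((g i)⁻¹ : Cˣ) : C) - b i - ι t * γ i) := by
          have e1 : ((g i * (g j)⁻¹ : Cˣ) : C) * (s * (((g i)⁻¹ : Cˣ) : C))
              = s * (((g j)⁻¹ : Cˣ) : C) := by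
            rw [Units.val_mul]
            calc (g i : C) * (((g j)⁻¹ : Cˣ) : C) * (s * (((g i)⁻¹ : Cˣ) : C))
                = s * (((g j)⁻¹ : Cˣ) : C) * ((g i : C) * (((g i)⁻¹ : Cˣ) : C)) := by ring
              _ = _ := by rw [Units.mul_inv, mul_one]
          linear_combination e1
        rw [e]
        exact Ideal.sub_mem _ (hγ j) (Ideal.mul_mem_left _ _ (hγ i))
      have hmem : ((g i * (g j)⁻¹ : Cˣ) : C) * b i - b j ∈ B {i, j} := by
        refine (B {i, j}).sub_mem ((B {i, j}).mul_mem (hg i j) ?_) ?_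
        · exact hctx.mono {i} {i, j} (Finset.singleton_nonempty i) (by simp) (hb1 i)
        · exact hctx.mono {j} {i, j} (Finset.singleton_nonempty j) (by simp) (hb1 j)
      have hsp := hT2 {i, j} ⟨i, by simp⟩ _ hmem _ hI
      have hup := LS.up ι₀ q₀ d {i, j} j (by simp) _ hsp
      have e2 : (LS.gb q₀ d j : C₀) * ρ (γ j - ((g i * (g j)⁻¹ : Cˣ) : C) * γ i)
          = -((LS.gb q₀ d i : C₀) * ρ (γ i)) - -((LS.gb q₀ d j : C₀) * ρ (γ j)) := by
        rw [map_sub, map_mul, Units.val_mul, map_mul, hgb, hgbi]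
        calc (LS.gb q₀ d j : C₀) * (ρ (γ j)
              - (LS.gb q₀ d i : C₀) * (((LS.gb q₀ d j)⁻¹ : C₀ˣ) : C₀) * ρ (γ i))
            = (LS.gb q₀ d j : C₀) * ρ (γ j) - (LS.gb q₀ d i : C₀) * ρ (γ i)
              * ((LS.gb q₀ d j : C₀) * (((LS.gb q₀ d j)⁻¹ : C₀ˣ) : C₀)) := by ring
          _ = _ := by rw [Units.mul_inv]; ring
      rwa [e2] at hup
    -- coordinates of the local solutions
    have hG : ∀ i, ∃ G : Idx →₀ k, comb ι₀ q₀.mon G = -((LS.gb q₀ d i : C₀) * ρ (γ i)) :=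
      fun i => hctx.fr₀.2 _
    choose G hG using hG
    have hsupp : ∀ i j, ∀ s ∈ (G i - G j).support, s ∈ regd d {i, j} := by
      intro i j
      refine LS.supp_of_inspan ι₀ q₀.mon hinj _ _ ?_
      rw [comb_sub, hG, hG]
      exact hover i j
    obtain ⟨a0, a1, a2, ha0, ha1, ha2, e01, e12, e20⟩ := h2 k d (G 0 - G 1) (G 1 - G 2)
      (G 2 - G 0) (hsupp 0 1) (hsupp 1 2) (by
        have := hsupp 2 0
        rwa [Finset.pair_comm] at this) (by abel)
    -- the correction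
    obtain ⟨th, hth⟩ := hR1 (comb ι₀ q₀.mon (G 0 - a0))
    have hsol : ∀ i, ∃ a : Idx →₀ k, (∀ s ∈ a.support, s ∈ regd d {i}) ∧
        ρ th = -((LS.gb q₀ d i : C₀) * ρ (γ i)) - comb ι₀ q₀.mon a := by
      intro i
      fin_cases i
      · refine ⟨a0, ha0, ?_⟩
        rw [hth, comb_sub, hG]
        rfl
      · refine ⟨a1, ha1, ?_⟩
        have : G 0 - a0 = G 1 - a1 := by
          calc G 0 - a0 = (G 0 - G 1) + G 1 - a0 := by abel
            _ = (a0 - a1) + G 1 - a0 := by rw [e01]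
            _ = _ := by abel
        rw [hth, this, comb_sub, hG]
        rfl
      · refine ⟨a2, ha2, ?_⟩
        have : G 0 - a0 = G 2 - a2 := by
          calc G 0 - a0 = G 2 - (G 2 - G 0) - a0 := by abel
            _ = G 2 - (a2 - a0) - a0 := by rw [e20]
            _ = _ := by abel
        rw [hth, this, comb_sub, hG]
        rfl
    have hιt : ρ (ι t) = 0 := (hR4 _).mpr (Ideal.mem_map_of_mem ι ht)
    refine ⟨s + ι t * th, by rw [map_add, map_mul, hιt, zero_mul, add_zero, hs], fun i => ?_⟩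
    obtain ⟨a, ha, hea⟩ := hsol i
    have hsp : InSpan ι₀ q₀.mon (reg {i}) (ρ (γ i + (((g i)⁻¹ : Cˣ) : C) * th)) := by
      have e : ρ (γ i + (((g i)⁻¹ : Cˣ) : C) * th)
          = -((((LS.gb q₀ d i)⁻¹ : C₀ˣ) : C₀) * comb ι₀ q₀.mon a) := by
        rw [map_add, map_mul, hgbi, hea]
        calc ρ (γ i) + (((LS.gb q₀ d i)⁻¹ : C₀ˣ) : C₀)
              * (-((LS.gb q₀ d i : C₀) * ρ (γ i)) - comb ι₀ q₀.mon a)
            = ρ (γ i) - ρ (γ i) * ((((LS.gb q₀ d i)⁻¹ : C₀ˣ) : C₀) * (LS.gb q₀ d i : C₀))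
              - (((LS.gb q₀ d i)⁻¹ : C₀ˣ) : C₀) * comb ι₀ q₀.mon a := by ring
          _ = _ := by rw [Units.inv_mul]; ring
      rw [e]
      exact (LS.down ι₀ q₀ d {i} i (Finset.mem_singleton_self i) _ ⟨a, ha, rfl⟩).neg
    obtain ⟨b', hb', hρb'⟩ := hR3 {i} (Finset.singleton_nonempty i) _ hsp
    refine ⟨b i + ι t * b', (B {i}).add_mem (hb1 i)
      ((B {i}).mul_mem (hι {i} (Finset.singleton_nonempty i) t) hb'), ?_⟩
    have h5 : ι t * (γ i + (((g i)⁻¹ : Cˣ) : C) * th - b') ∈ Ideal.map ι J := by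
      rw [hT1, map_sub, hρb', sub_self]
    have e : (s + ι t * th) * (((g i)⁻¹ : Cˣ) : C) - (b i + ι t * b')
        = (s * (((g i)⁻¹ : Cˣ) : C) - b i - ι t * γ i)
          + ι t * (γ i + (((g i)⁻¹ : Cˣ) : C) * th - b') := by ring
    rw [e]
    exact Ideal.add_mem _ (hγ i) h5

end Pool.Agent.H1.CM
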