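import Mathlib
import Pool.Agent.H1.CM.Targets1

/-!
# Module MOD: modification of adapted coordinates
-/

namespace Pool.Agent.H1.CM

open MvPolynomial IsLocalRing

namespace MOD

variable {A C : Type} [CommRing A] [CommRing C]

/-- Homogeneous forms divided by the right power of `U`. -/
lemma ev_mem (ι : A →+* C) (S : Subring C) (hι : ∀ a, ι a ∈ S) (v : Fin 3 → C) (U : C)
    (hv : ∀ i, v i * U ∈ S) (d : ℕ) (p : MvPolynomial (Fin 3) A) (hp : p.IsHomogeneous d) :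
    eval₂ ι v p * U ^ d ∈ S := by
  rw [eval₂_eq', Finset.sum_mul]
  refine Subring.sum_mem S fun m hm => ?_
  have hd : m 0 + m 1 + m 2 = d := by
    have := hp (mem_support_iff.mp hm)
    rw [Finsupp.weight_apply, Finsupp.sum_fintype _ _ (by simp), Fin.sum_univ_three] at this
    simpa using this
  have h : ι (coeff m p) * (∏ i, v i ^ m i) * U ^ d
      = ι (coeff m p) * ∏ i, (v i * U) ^ m i := by
    rw [← hd]
    simp only [Fin.prod_univ_three, mul_pow, pow_add]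
    ring
  rw [h]
  exact S.mul_mem (hι _) (S.prod_mem fun i _ => S.pow_mem (hv i) _)

/-- One chart. -/
lemma chart (ι : A →+* C) (S : Subring C) (hι : ∀ a, ι a ∈ S) (v : Fin 3 → C) (n w : C)
    (U : Cˣ) (hv : ∀ i, v i * ((U⁻¹ : Cˣ) : C) ∈ S) (hn : n * ((U⁻¹ : Cˣ) : C) ^ 2 ∈ S)
    (hw : w * ((U⁻¹ : Cˣ) : C) ^ 5 ∈ S) (L : Fin 3 → Fin 3 → A) (u : A)
    (s : MvPolynomial (Fin 3) A) (hs : s.IsHomogeneous 2) (r : Fin 3) (u' : Fin 3 → Cˣ)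
    (hu' : ∀ i, (u' i : C) = ∑ j : Fin 3, ι (L i j) * v j)
    (hinv : ∀ c ∈ S, c = (u' r : C) * ((U⁻¹ : Cˣ) : C) → ∃ e ∈ S, c * e = 1) :
    (∀ i, (u' i : C) * (((u' r)⁻¹ : Cˣ) : C) ∈ S) ∧
      (ι u * n + eval₂ ι v s) * (((u' r)⁻¹ : Cˣ) : C) ^ 2 ∈ S ∧
      w * (((u' r)⁻¹ : Cˣ) : C) ^ 5 ∈ S := by
  have h1 : ∀ i, (u' i : C) * ((U⁻¹ : Cˣ) : C) ∈ S := by
    intro i
    rw [hu', Finset.sum_mul]
    refine Subring.sum_mem S fun j _ => ?_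
    rw [mul_assoc]
    exact S.mul_mem (hι _) (hv j)
  obtain ⟨e, he, hee⟩ := hinv _ (h1 r) rfl
  have h2 : (((u' r)⁻¹ : Cˣ) : C) = ((U⁻¹ : Cˣ) : C) * e := by
    have h3 : (((u' r)⁻¹ : Cˣ) : C) * ((u' r : C) * ((U⁻¹ : Cˣ) : C) * e)
        = (((u' r)⁻¹ : Cˣ) : C) := by rw [hee, mul_one]
    rw [← h3, ← mul_assoc, ← mul_assoc, Units.inv_mul, one_mul]
  rw [h2]
  refine ⟨fun i => ?_, ?_, ?_⟩
  · rw [← mul_assoc]
    exact S.mul_mem (h1 i) he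
  · rw [mul_pow, ← mul_assoc]
    refine S.mul_mem ?_ (S.pow_mem he 2)
    rw [add_mul, mul_assoc]
    exact S.add_mem (S.mul_mem (hι _) hn) (ev_mem ι S hι v _ hv 2 s hs)
  · rw [mul_pow, ← mul_assoc]
    exact S.mul_mem hw (S.pow_mem he 5)

lemma inspan_one (ι : A →+* C) (q : Quad C) (S : Finset (Fin 3)) :
    InSpan ι q.mon (reg S) 1 := by
  rw [← q.mon_zero]
  refine InSpan.of_mem ?_
  intro r _
  fin_cases r <;> simp [expo, dg]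

end MOD

theorem mod (h1 : T_RED) : T_MOD := by
  intro A k C C₀ _ _ _ _ _ _ π ι B ι₀ q₀ ρ hctx q hq hB L u s hL hu hs hsm
  obtain ⟨hR1, hR2, hR3, hR4, hR5, hR6⟩ := h1 π ι B ι₀ q₀ ρ hctx
  have hcomm := hctx.comm
  have hι : ∀ S : Finset (Fin 3), S.Nonempty → ∀ a, ι a ∈ B S := by
    intro S hS a
    obtain ⟨β, hβ, _⟩ := hctx.basis
    obtain ⟨g, hg, h1g⟩ := (hβ.mem S hS 1).mp (B S).one_mem
    refine (hβ.mem S hS _).mpr ⟨a • g, fun t ht => hg t (Finsupp.support_smul ht), ?_⟩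
    rw [comb_smul, ← h1g, mul_one]
  have hqX : ρ q.X = q₀.X := by rw [← hq]; rfl
  have hqY : ρ q.Y = q₀.Y := by rw [← hq]; rfl
  have hqn : ρ q.n = q₀.n := by rw [← hq]; rfl
  have hqw : ρ q.w = q₀.w := by rw [← hq]; rfl
  have hρv : ∀ i, ρ (∑ j : Fin 3, ι (L i j) * q.vec j) = q₀.vec i := by
    intro i
    rw [map_sum]
    simp only [map_mul, hcomm, hL]
    have : ∀ j, ρ (q.vec j) = q₀.vec j := by
      intro j
      rw [← Quad.map_vec, hq]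
    simp only [this]
    simp
  have hunit : ∀ i, IsUnit (∑ j : Fin 3, ι (L i j) * q.vec j) := by
    intro i
    apply hR6
    rw [hρv]
    fin_cases i
    · exact q₀.X.isUnit
    · exact q₀.Y.isUnit
    · exact isUnit_one
  choose u' hu' using hunit
  have hρu : ∀ i, ρ (u' i) = q₀.vec i := fun i => by rw [hu', hρv]
  have hρ2 : ρ (u' 2) = 1 := hρu 2
  have hρ2i : ρ (((u' 2)⁻¹ : Cˣ) : C) = 1 := by
    have h : ρ (((u' 2)⁻¹ : Cˣ) : C) * ρ (u' 2) = 1 := by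
      rw [← map_mul, Units.inv_mul, map_one]
    rwa [hρ2, mul_one] at h
  -- the three charts
  have hinv : ∀ (r : Fin 3) (U : Cˣ), ρ U = q₀.vec r → ∀ c ∈ B {r},
      c = (u' r : C) * ((U⁻¹ : Cˣ) : C) → ∃ e ∈ B {r}, c * e = 1 := by
    intro r U hU c hc hcU
    refine hR5 {r} (Finset.singleton_nonempty r) c hc 1 (MOD.inspan_one ι₀ q₀ {r}) ?_
    rw [hcU, map_mul, hρu, ← hU, ← map_mul, Units.mul_inv, map_one, one_mul]
  have c2 := MOD.chart ι (B {2}) (hι {2} (Finset.singleton_nonempty 2)) q.vec q.n q.w 1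
    (by
      intro i
      simp only [inv_one, Units.val_one, mul_one]
      fin_cases i
      · exact hB.z.1
      · exact hB.z.2.1
      · exact (B {2}).one_mem)
    (by simpa using hB.z.2.2.1) (by simpa using hB.z.2.2.2) L u s hs 2 u' hu'
    (hinv 2 1 (by simp [Quad.vec]))
  have c0 := MOD.chart ι (B {0}) (hι {0} (Finset.singleton_nonempty 0)) q.vec q.n q.w q.X
    (by
      intro i
      fin_cases i
      · change (q.X : C) * ((q.X⁻¹ : Cˣ) : C) ∈ B {0}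
        rw [Units.mul_inv]
        exact (B {0}).one_mem
      · exact hB.x.2.1
      · change (1 : C) * ((q.X⁻¹ : Cˣ) : C) ∈ B {0}
        rw [one_mul]
        exact hB.x.1)
    hB.x.2.2.1 hB.x.2.2.2 L u s hs 0 u' hu' (hinv 0 q.X hqX)
  have c1 := MOD.chart ι (B {1}) (hι {1} (Finset.singleton_nonempty 1)) q.vec q.n q.w q.Y
    (by
      intro i
      fin_cases i
      · exact hB.y.2.1
      · change (q.Y : C) * ((q.Y⁻¹ : Cˣ) : C) ∈ B {1}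
        rw [Units.mul_inv]
        exact (B {1}).one_mem
      · change (1 : C) * ((q.Y⁻¹ : Cˣ) : C) ∈ B {1}
        rw [one_mul]
        exact hB.y.1)
    hB.y.2.2.1 hB.y.2.2.2 L u s hs 1 u' hu' (hinv 1 q.Y hqY)
  have hevs : ρ (eval₂ ι q.vec s) = 0 := by
    have h := Quad.map_ev ι ι₀ π ρ hcomm q s
    unfold Quad.ev at h
    rw [h, hsm, eval₂_zero]
  -- inverses
  have i2 : ∀ c : C, (u' 2 : C) * ((((u' 2)⁻¹ : Cˣ) : C) * c) = c := by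
    intro c
    rw [← mul_assoc, Units.mul_inv, one_mul]
  have i2' : (((u' 2)⁻¹ : Cˣ) : C) * (u' 2 : C) = 1 := Units.inv_mul _
  refine ⟨⟨u' 0 * (u' 2)⁻¹, u' 1 * (u' 2)⁻¹,
    (ι u * q.n + eval₂ ι q.vec s) * (((u' 2)⁻¹ : Cˣ) : C) ^ 2,
    q.w * (((u' 2)⁻¹ : Cˣ) : C) ^ 5⟩, (u' 2 : C), ?_, ?_, ?_⟩
  · rw [Quad.ext_iff]
    refine ⟨?_, ?_, ?_, ?_⟩
    · ext
      change ρ ((u' 0 : C) * (((u' 2)⁻¹ : Cˣ) : C)) = q₀.X
      rw [map_mul, hρ2i, mul_one, hρu]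
      rfl
    · ext
      change ρ ((u' 1 : C) * (((u' 2)⁻¹ : Cˣ) : C)) = q₀.Y
      rw [map_mul, hρ2i, mul_one, hρu]
      rfl
    · change ρ ((ι u * q.n + eval₂ ι q.vec s) * (((u' 2)⁻¹ : Cˣ) : C) ^ 2) = q₀.n
      rw [map_mul, map_pow, hρ2i, one_pow, mul_one, map_add, map_mul, hcomm, hu, hevs, hqn,
        map_one, one_mul, add_zero]
    · change ρ (q.w * (((u' 2)⁻¹ : Cˣ) : C) ^ 5) = q₀.w
      rw [map_mul, map_pow, hρ2i, one_pow, mul_one, hqw]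
  · refine ⟨⟨?_, ?_, ?_, ?_⟩, ⟨?_, ?_, ?_, ?_⟩, ⟨?_, ?_, ?_, ?_⟩⟩
    · exact c2.1 0
    · exact c2.1 1
    · exact c2.2.1
    · exact c2.2.2
    · have : (((u' 0 * (u' 2)⁻¹)⁻¹ : Cˣ) : C) = (u' 2 : C) * (((u' 0)⁻¹ : Cˣ) : C) := by
        rw [mul_inv, inv_inv, Units.val_mul, mul_comm]
      change (((u' 0 * (u' 2)⁻¹)⁻¹ : Cˣ) : C) ∈ B {0}
      rw [this]
      exact c0.1 2
    · have : (u' 1 * (u' 2)⁻¹ : Cˣ) * (((u' 0 * (u' 2)⁻¹)⁻¹ : Cˣ) : C)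
          = (u' 1 : C) * (((u' 0)⁻¹ : Cˣ) : C) := by
        rw [← Units.val_mul, ← Units.val_mul]
        congr 1
        rw [mul_inv, inv_inv, mul_comm (u' 0)⁻¹ (u' 2), mul_assoc, inv_mul_cancel_left]
      change (u' 1 * (u' 2)⁻¹ : Cˣ) * (((u' 0 * (u' 2)⁻¹)⁻¹ : Cˣ) : C) ∈ B {0}
      rw [this]
      exact c0.1 1
    · have : (((u' 0 * (u' 2)⁻¹)⁻¹ : Cˣ) : C) = (u' 2 : C) * (((u' 0)⁻¹ : Cˣ) : C) := by
        rw [mul_inv, inv_inv, Units.val_mul, mul_comm]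
      change (ι u * q.n + eval₂ ι q.vec s) * (((u' 2)⁻¹ : Cˣ) : C) ^ 2
        * (((u' 0 * (u' 2)⁻¹)⁻¹ : Cˣ) : C) ^ 2 ∈ B {0}
      rw [this]
      have e : (ι u * q.n + eval₂ ι q.vec s) * (((u' 2)⁻¹ : Cˣ) : C) ^ 2
          * ((u' 2 : C) * (((u' 0)⁻¹ : Cˣ) : C)) ^ 2
          = (ι u * q.n + eval₂ ι q.vec s) * (((u' 0)⁻¹ : Cˣ) : C) ^ 2
            * ((((u' 2)⁻¹ : Cˣ) : C) * (u' 2 : C)) ^ 2 := by ring
      rw [e, i2', one_pow, mul_one]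
      exact c0.2.1
    · have : (((u' 0 * (u' 2)⁻¹)⁻¹ : Cˣ) : C) = (u' 2 : C) * (((u' 0)⁻¹ : Cˣ) : C) := by
        rw [mul_inv, inv_inv, Units.val_mul, mul_comm]
      change q.w * (((u' 2)⁻¹ : Cˣ) : C) ^ 5
        * (((u' 0 * (u' 2)⁻¹)⁻¹ : Cˣ) : C) ^ 5 ∈ B {0}
      rw [this]
      have e : q.w * (((u' 2)⁻¹ : Cˣ) : C) ^ 5
          * ((u' 2 : C) * (((u' 0)⁻¹ : Cˣ) : C)) ^ 5
          = q.w * (((u' 0)⁻¹ : Cˣ) : C) ^ 5
            * ((((u' 2)⁻¹ : Cˣ) : C) * (u' 2 : C)) ^ 5 := by ring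
      rw [e, i2', one_pow, mul_one]
      exact c0.2.2
    · have : (((u' 1 * (u' 2)⁻¹)⁻¹ : Cˣ) : C) = (u' 2 : C) * (((u' 1)⁻¹ : Cˣ) : C) := by
        rw [mul_inv, inv_inv, Units.val_mul, mul_comm]
      change (((u' 1 * (u' 2)⁻¹)⁻¹ : Cˣ) : C) ∈ B {1}
      rw [this]
      exact c1.1 2
    · have : (u' 0 * (u' 2)⁻¹ : Cˣ) * (((u' 1 * (u' 2)⁻¹)⁻¹ : Cˣ) : C)
          = (u' 0 : C) * (((u' 1)⁻¹ : Cˣ) : C) := by
        rw [← Units.val_mul, ← Units.val_mul]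
        congr 1
        rw [mul_inv, inv_inv, mul_comm (u' 1)⁻¹ (u' 2), mul_assoc, inv_mul_cancel_left]
      change (u' 0 * (u' 2)⁻¹ : Cˣ) * (((u' 1 * (u' 2)⁻¹)⁻¹ : Cˣ) : C) ∈ B {1}
      rw [this]
      exact c1.1 0
    · have : (((u' 1 * (u' 2)⁻¹)⁻¹ : Cˣ) : C) = (u' 2 : C) * (((u' 1)⁻¹ : Cˣ) : C) := by
        rw [mul_inv, inv_inv, Units.val_mul, mul_comm]
      change (ι u * q.n + eval₂ ι q.vec s) * (((u' 2)⁻¹ : Cˣ) : C) ^ 2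
        * (((u' 1 * (u' 2)⁻¹)⁻¹ : Cˣ) : C) ^ 2 ∈ B {1}
      rw [this]
      have e : (ι u * q.n + eval₂ ι q.vec s) * (((u' 2)⁻¹ : Cˣ) : C) ^ 2
          * ((u' 2 : C) * (((u' 1)⁻¹ : Cˣ) : C)) ^ 2
          = (ι u * q.n + eval₂ ι q.vec s) * (((u' 1)⁻¹ : Cˣ) : C) ^ 2
            * ((((u' 2)⁻¹ : Cˣ) : C) * (u' 2 : C)) ^ 2 := by ring
      rw [e, i2', one_pow, mul_one]
      exact c1.2.1
    · have : (((u' 1 * (u' 2)⁻¹)⁻¹ : Cˣ) : C) = (u' 2 : C) * (((u' 1)⁻¹ : Cˣ) : C) := by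
        rw [mul_inv, inv_inv, Units.val_mul, mul_comm]
      change q.w * (((u' 2)⁻¹ : Cˣ) : C) ^ 5
        * (((u' 1 * (u' 2)⁻¹)⁻¹ : Cˣ) : C) ^ 5 ∈ B {1}
      rw [this]
      have e : q.w * (((u' 2)⁻¹ : Cˣ) : C) ^ 5
          * ((u' 2 : C) * (((u' 1)⁻¹ : Cˣ) : C)) ^ 5
          = q.w * (((u' 1)⁻¹ : Cˣ) : C) ^ 5
            * ((((u' 2)⁻¹ : Cˣ) : C) * (u' 2 : C)) ^ 5 := by ring
      rw [e, i2', one_pow, mul_one]
      exact c1.2.2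
  · have hz : (u' 2 : C) = ι (L 2 0) * q.X + ι (L 2 1) * q.Y + ι (L 2 2) := by
      rw [hu', Fin.sum_univ_three]
      simp [Quad.vec]
    refine ⟨?_, ?_, hz, ?_, ?_⟩
    · change (u' 2 : C) * ((u' 0 : C) * (((u' 2)⁻¹ : Cˣ) : C)) = _
      rw [mul_comm (u' 0 : C), i2, hu', Fin.sum_univ_three]
      simp [Quad.vec]
    · change (u' 2 : C) * ((u' 1 : C) * (((u' 2)⁻¹ : Cˣ) : C)) = _
      rw [mul_comm (u' 1 : C), i2, hu', Fin.sum_univ_three]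
      simp [Quad.vec]
    · change (u' 2 : C) ^ 2 * ((ι u * q.n + eval₂ ι q.vec s) * (((u' 2)⁻¹ : Cˣ) : C) ^ 2)
        = ι u * q.n + eval₂ ι q.vec s
      have e : (u' 2 : C) ^ 2 * ((ι u * q.n + eval₂ ι q.vec s) * (((u' 2)⁻¹ : Cˣ) : C) ^ 2)
          = (ι u * q.n + eval₂ ι q.vec s) * ((((u' 2)⁻¹ : Cˣ) : C) * (u' 2 : C)) ^ 2 := by ring
      rw [e, i2', one_pow, mul_one]
    · change (u' 2 : C) ^ 5 * (q.w * (((u' 2)⁻¹ : Cˣ) : C) ^ 5)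
        = ι 1 * q.w + eval₂ ι q.vec 0 + eval₂ ι q.vec 0 * q.n
      have e : (u' 2 : C) ^ 5 * (q.w * (((u' 2)⁻¹ : Cˣ) : C) ^ 5)
          = q.w * ((((u' 2)⁻¹ : Cˣ) : C) * (u' 2 : C)) ^ 5 := by ring
      rw [e, i2', one_pow, mul_one, map_one, one_mul, eval₂_zero, zero_mul, add_zero, add_zero]

end Pool.Agent.H1.CM
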