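import Mathlib
import Pool.Agent.H1.CM.Targets1

/-!
# Module UNQ: forms are determined by their values
-/

namespace Pool.Agent.H1.CM

open MvPolynomial

namespace UNQ

variable {A C : Type} [CommRing A] [CommRing C]

/-- The index of the monomial `m` in the component `t`. -/
def idx (t : Fin 4) (m : Fin 3 →₀ ℕ) : Idx := ((m 0 : ℤ), (m 1 : ℤ), t)

/-- The coefficients of `ev4 P` in the monomials. -/
noncomputable def G (P : Fin 4 → MvPolynomial (Fin 3) A) : Idx →₀ A :=
  ∑ t : Fin 4, ∑ m ∈ (P t).support, Finsupp.single (idx t m) (coeff m (P t))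

lemma comb_G (ι : A →+* C) (q : Quad C) (P : Fin 4 → MvPolynomial (Fin 3) A) :
    comb ι q.mon (G P) = ev4 ι q P := by
  unfold G ev4
  rw [comb_sum]
  refine Finset.sum_congr rfl fun t _ => ?_
  rw [comb_sum]
  unfold Quad.ev
  rw [eval₂_eq', Finset.sum_mul]
  refine Finset.sum_congr rfl fun m _ => ?_
  rw [comb_single]
  have hX : ((q.X ^ (m 0 : ℤ) : Cˣ) : C) = (q.X : C) ^ (m 0) := by
    rw [zpow_natCast]; simp
  have hY : ((q.Y ^ (m 1 : ℤ) : Cˣ) : C) = (q.Y : C) ^ (m 1) := by
    rw [zpow_natCast]; simp
  unfold Quad.mon idx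
  simp only [hX, hY]
  rw [Fin.prod_univ_three]
  simp only [Quad.vec, Matrix.cons_val_zero, Matrix.cons_val_one, Matrix.cons_val_two,
    Matrix.head_cons, Matrix.tail_cons, one_pow, mul_one]
  ring

/-- Total degree of the exponents. -/
lemma deg_of_mem {d : ℕ} {P : Fin 4 → MvPolynomial (Fin 3) A} (hP : Forms4 d P) {t : Fin 4}
    {m : Fin 3 →₀ ℕ} (hm : coeff m (P t) ≠ 0) :
    dgN t ≤ d ∧ m 0 + m 1 + m 2 = d - dgN t := by
  have h1 : dgN t ≤ d := by
    by_contra h
    push Not at h
    rw [hP.zero t h] at hm
    simp at hm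
  refine ⟨h1, ?_⟩
  have := hP.hom t h1 hm
  rw [Finsupp.weight_apply, Finsupp.sum_fintype _ _ (by simp), Fin.sum_univ_three] at this
  simpa using this

lemma G_apply {d : ℕ} {P : Fin 4 → MvPolynomial (Fin 3) A} (hP : Forms4 d P) (t : Fin 4)
    (m : Fin 3 →₀ ℕ) (_h0 : dgN t ≤ d) (hm : m 0 + m 1 + m 2 = d - dgN t) :
    G P (idx t m) = coeff m (P t) := by
  classical
  unfold G
  rw [Finsupp.finsetSum_apply]
  rw [Finset.sum_eq_single t]
  · rw [Finsupp.finsetSum_apply]
    by_cases hmem : m ∈ (P t).support
    · rw [Finset.sum_eq_single m]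
      · simp
      · intro m' hm' hne
        rw [Finsupp.single_apply, if_neg]
        intro heq
        apply hne
        have h' := deg_of_mem hP (mem_support_iff.mp hm')
        unfold idx at heq
        simp only [Prod.mk.injEq, Nat.cast_inj] at heq
        ext i
        fin_cases i
        · exact heq.1
        · exact heq.2.1
        · change m' 2 = m 2
          have h1 := heq.1
          have h2 := heq.2.1
          omega
      · intro h
        exact absurd hmem h
    · rw [notMem_support_iff.mp hmem]
      refine Finset.sum_eq_zero fun m' hm' => ?_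
      rw [Finsupp.single_apply, if_neg]
      intro heq
      apply hmem
      have h' := deg_of_mem hP (mem_support_iff.mp hm')
      unfold idx at heq
      simp only [Prod.mk.injEq, Nat.cast_inj] at heq
      have : m' = m := by
        ext i
        fin_cases i
        · exact heq.1
        · exact heq.2.1
        · change m' 2 = m 2
          have h1 := heq.1
          have h2 := heq.2.1
          omega
      rwa [this] at hm'
  · intro t' _ hne
    rw [Finsupp.finsetSum_apply]
    refine Finset.sum_eq_zero fun m' _ => ?_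
    rw [Finsupp.single_apply, if_neg]
    intro heq
    apply hne
    unfold idx at heq
    simp only [Prod.mk.injEq] at heq
    exact heq.2.2
  · intro h
    exact absurd (Finset.mem_univ t) h

end UNQ

theorem unq : T_UNQ := by
  intro A C _ _ ι q hinj d P P' hP hP' heq
  have hG : UNQ.G P = UNQ.G P' := by
    apply hinj
    rw [UNQ.comb_G, UNQ.comb_G, heq]
  funext t
  ext m
  by_cases h1 : dgN t ≤ d ∧ m 0 + m 1 + m 2 = d - dgN t
  · rw [← UNQ.G_apply hP t m h1.1 h1.2, ← UNQ.G_apply hP' t m h1.1 h1.2, hG]
  · have e1 : coeff m (P t) = 0 := by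
      by_contra h
      exact h1 (UNQ.deg_of_mem hP h)
    have e2 : coeff m (P' t) = 0 := by
      by_contra h
      exact h1 (UNQ.deg_of_mem hP' h)
    rw [e1, e2]

end Pool.Agent.H1.CM
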